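import Mathlib
import Pool.Agent.H556.FX.Seq
import Pool.Agent.H556.GD.Core

/-!
# Common divisors of `2 ^ n - 1` and sums of few powers of two
-/

set_option autoImplicit false

namespace Pool.Agent.H556.ME

open Filter Topology Pool.Agent.TH932.Germs Pool.Agent.TH551.SU Pool.Agent.Y724.Vj
open Pool.Agent.H556.FG Pool.Agent.H556.FX Pool.Agent.H556.GD

/-- the prime two -/
def b2 : Fin 1 → ℕ := fun _ => 2

lemma b2_prime : ∀ v, (b2 v).Prime := fun _ => Nat.prime_two

lemma b2_inj : Function.Injective b2 := fun _ _ _ => Subsingleton.elim _ _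

lemma su_two : IsSU b2 (2 : ℚ) := by
  have := isSU_int b2 b2_prime b2_inj (x := 2) (by norm_num) (fun p hp hd => by
    have h1 : p ∣ 2 := by simpa using hd
    exact ⟨0, ((Nat.prime_dvd_prime_iff_eq hp Nat.prime_two).1 h1).symm⟩)
  exact_mod_cast this

lemma half_rpow (x t : ℝ) : (Real.exp x / 2) ^ t = Real.exp ((x - Real.log 2) * t) := by
  have h : Real.exp x / 2 = Real.exp (x - Real.log 2) := by
    rw [Real.exp_sub, Real.exp_log (by norm_num)]
  rw [h, ← Real.exp_mul]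

lemma pow_ge {n : ℕ} (hn : 1 ≤ n) : 2 ≤ 2 ^ n := by
  calc 2 = 2 ^ 1 := by norm_num
    _ ≤ 2 ^ n := Nat.pow_le_pow_right (by norm_num) hn

/-- all exponents -/
theorem all (r : ℕ) (K δ : ℝ) (hδ : 0 < δ) :
    ∃ η : ℝ, 0 < η ∧ ∃ B : ℕ, ∀ n ≥ B, ∀ (c : Fin r → ℤ) (a : Fin r → ℕ),
      (∀ i, |(c i : ℝ)| ≤ ((2 ^ n - 1 : ℕ) : ℝ) ^ η) → (∀ i, (a i : ℝ) ≤ K * n) →
      ¬ ((2 ^ n - 1 : ℕ) : ℤ) ∣ ∑ i, c i * 2 ^ a i →
      ∀ d : ℕ, d ∣ 2 ^ n - 1 → (d : ℤ) ∣ ∑ i, c i * 2 ^ a i →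
      (d : ℝ) < ((2 ^ n - 1 : ℕ) : ℝ) ^ (1 - 1 / (r : ℝ) + δ) := by
  classical
  by_contra hcon
  push Not at hcon
  choose N hN c a hc ha hNF D hDF hDG hD using
    fun n : ℕ => hcon (1 / ((n : ℝ) + 1)) (by positivity) (n + 1)
  have hN1 : ∀ n, 1 ≤ N n := fun n => by have := hN n; omega
  have hl2 : 0 < Real.log 2 := Real.log_pos (by norm_num)
  set L : ℕ → ℝ := fun n => N n * Real.log 2 with hLdef
  have hexpL : ∀ n, Real.exp (L n) = 2 ^ (N n) := fun n => by
    rw [hLdef]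
    simp only []
    rw [mul_comm, Real.exp_mul, Real.exp_log (by norm_num), Real.rpow_natCast]
  have hNt : Tendsto (fun n => (N n : ℝ)) atTop atTop := by
    apply tendsto_natCast_atTop_atTop.comp
    exact tendsto_atTop_mono (fun n => (Nat.le_succ n).trans (hN n)) tendsto_id
  have hL : Tendsto L atTop atTop := hNt.atTop_mul_const hl2
  have hLn : ∀ n, 0 ≤ L n := fun n => mul_nonneg (Nat.cast_nonneg _) hl2.le
  set Z : ℕ → ℚ := fun n => -(2 ^ N n) with hZ
  have hZ0 : ∀ n, Z n ≠ 0 := fun n => neg_ne_zero.2 (by positivity)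
  have hZint : ∀ n, Z n = ((-(2 ^ N n) : ℤ) : ℚ) := fun n => by rw [hZ]; push_cast; rfl
  have hZsu : ∀ n, IsSU b2 (Z n) := fun n =>
    isSU_neg b2_prime (isSU_pow b2_prime su_two _)
  have hZB : Bd L (gm Z) := by
    refine ⟨fun n => -2 ^ (N n), fun _ => 1, 1, ?_, ?_, ?_, ?_⟩
    · refine Eventually.of_forall fun n => ?_
      push_cast
      rw [abs_neg, one_mul, abs_of_pos (by positivity), hexpL]
    · refine Eventually.of_forall fun n => ?_
      push_cast
      rw [abs_one, one_mul]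
      exact Real.one_le_exp (hLn n)
    · exact Eventually.of_forall fun n => one_ne_zero
    · congr 1
      funext n
      rw [hZ]
      push_cast
      rw [div_one]
  have hZK : gm Z ∉ KK L hL := by
    intro h
    rw [mem_KK_iff] at h
    have h1 := h.1 (1 / 2) (by norm_num)
    obtain ⟨n, hn0⟩ := h1.exists
    have hn1 : |((Z n).num : ℝ)| ≤ Real.exp (1 / 2 * L n) := hn0
    rw [hZint, Rat.num_intCast] at hn1
    push_cast at hn1
    rw [abs_neg, abs_of_pos (by positivity), ← hexpL, Real.exp_le_exp] at hn1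
    have h6 : (1 : ℝ) ≤ N n := by exact_mod_cast hN1 n
    have h7 : 0 < L n := mul_pos (by linarith) hl2
    linarith
  set Q : ℕ → ℕ := fun n => 2 ^ N n - 1 with hQ
  have hQ1 : ∀ n, 1 ≤ Q n := fun n => by
    have := pow_ge (hN1 n)
    rw [hQ]
    simp only []
    omega
  have hQ0 : ∀ n, Q n ≠ 0 := fun n => by have := hQ1 n; omega
  have hQZ : ∀ n, ((Q n : ℕ) : ℤ) = 2 ^ N n - 1 := fun n => by
    rw [hQ]
    simp only []
    rw [Nat.cast_sub (Nat.one_le_two_pow)]
    push_cast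
    rfl
  have h1Z : ∀ n, 1 + Z n = ((-((Q n : ℕ) : ℤ) : ℤ) : ℚ) := by
    intro n
    rw [hQZ, hZ]
    push_cast
    ring
  have hF0 : ∀ n, 1 + Z n ≠ 0 := by
    intro n
    rw [h1Z]
    exact_mod_cast neg_ne_zero.2 (by exact_mod_cast hQ0 n : ((Q n : ℕ) : ℤ) ≠ 0)
  have hQF : ∀ n, (Q n : ℤ) ∣ (1 + Z n).num := by
    intro n
    rw [h1Z, Rat.num_intCast, dvd_neg]
  have hQR : ∀ n, (Q n : ℝ) = 2 ^ N n - 1 := fun n => by
    have := hQZ n
    exact_mod_cast this
  have hQL : ∀ n, (Q n : ℝ) ≤ Real.exp (L n) := fun n => by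
    rw [hQR, hexpL]
    linarith
  have hLQ : ∀ n, Real.exp (L n) ≤ 2 * Q n := fun n => by
    rw [hQR, hexpL]
    have h1 : (2 : ℝ) ≤ 2 ^ N n := by exact_mod_cast pow_ge (hN1 n)
    linarith
  have hcop : ∀ n v, Nat.Coprime (Q n) (b2 v) := by
    intro n v
    rw [Nat.coprime_comm, (b2_prime v).coprime_iff_not_dvd]
    intro h
    have h1 : 2 ∣ 2 ^ N n := dvd_pow_self _ (by have := hN1 n; omega)
    have h2 : 2 ∣ 2 ^ N n - 1 := h
    have := pow_ge (hN1 n)
    omega
  set u : Fin r → ℕ → ℚ := fun t n => 2 ^ (a n t) with hu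
  have hsum : ∀ n, ∑ t, (c n t : ℚ) * u t n = ((∑ t, c n t * 2 ^ a n t : ℤ) : ℚ) := by
    intro n
    push_cast
    rfl
  have huB : ∀ t, Bd L (gm (u t)) := by
    intro t
    refine ⟨fun n => 2 ^ (a n t), fun _ => 1, K, ?_, ?_, ?_, ?_⟩
    · refine Eventually.of_forall fun n => ?_
      push_cast
      rw [abs_of_pos (by positivity)]
      have h1 := ha n t
      have h2 : (2 : ℝ) ^ (a n t) = Real.exp (a n t * Real.log 2) := by
        rw [mul_comm, Real.exp_mul, Real.exp_log (by norm_num), Real.rpow_natCast]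
      rw [h2]
      apply Real.exp_le_exp.2
      have h3 : K * L n = K * N n * Real.log 2 := by rw [hLdef]; ring
      rw [h3]
      exact mul_le_mul_of_nonneg_right h1 hl2.le
    · refine Eventually.of_forall fun n => ?_
      push_cast
      rw [abs_one]
      apply Real.one_le_exp
      have h1 := ha n t
      have h2 : (0 : ℝ) ≤ K * N n := le_trans (Nat.cast_nonneg _) h1
      have h3 : K * L n = K * N n * Real.log 2 := by rw [hLdef]; ring
      rw [h3]
      positivity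
    · exact Eventually.of_forall fun n => one_ne_zero
    · congr 1
      funext n
      rw [hu]
      push_cast
      rw [div_one]
  have hneg : ∀ t, Negl L (fun n => c n t) := by
    intro t ε hε
    obtain ⟨N', hN'⟩ := exists_nat_gt (1 / ε)
    filter_upwards [ev_of_atTop (eventually_ge_atTop N')] with n hn
    have h1 := hc n t
    refine h1.trans ?_
    have hQ1' : (1 : ℝ) ≤ Q n := by exact_mod_cast hQ1 n
    calc ((Q n : ℕ) : ℝ) ^ (1 / ((n : ℝ) + 1)) ≤ (Real.exp (L n)) ^ (1 / ((n : ℝ) + 1)) :=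
          Real.rpow_le_rpow (by linarith) (hQL n) (by positivity)
      _ = Real.exp (1 / ((n : ℝ) + 1) * L n) := by rw [← Real.exp_mul, mul_comm]
      _ ≤ Real.exp (ε * L n) := by
          apply Real.exp_le_exp.2
          apply mul_le_mul_of_nonneg_right _ (hLn n)
          have hN'' : (N' : ℝ) ≤ n := by exact_mod_cast hn
          rw [div_le_iff₀ (by positivity)]
          rw [div_lt_iff₀ hε] at hN'
          nlinarith
  have key := coreG b2 b2_prime b2_inj hL Z hZsu hZ0 hZB hZK Q hQ0 hQF hF0 hQL hcop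
    (fun t n => c n t) u (fun t n => isSU_pow b2_prime su_two _) huB hneg D hDF
    (fun n => by rw [hsum, Rat.num_intCast]; exact hDG n)
    (fun n => by rw [hsum, Rat.num_intCast]; exact hNF n) (ε := δ / 2) (by positivity)
  have hr : 1 ≤ r := by
    by_contra h0
    have h1 : r = 0 := by omega
    subst h1
    apply hNF 0
    simp
  have hr' : (1 : ℝ) ≤ r := by exact_mod_cast hr
  have hrR : (0 : ℝ) ≤ 1 - 1 / (r : ℝ) := by
    rw [sub_nonneg, div_le_one (by linarith)]
    exact hr'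
  have hr1 : 1 - 1 / (r : ℝ) ≤ 1 := by
    have : (0 : ℝ) < 1 / (r : ℝ) := by positivity
    linarith
  obtain ⟨n, hn, hn2⟩ := (key.and (ev_of_atTop (hL.eventually_gt_atTop
    ((2 + δ) * Real.log 2 / (δ / 2))))).exists
  have hHt : Ht (Z n) ≤ Real.exp (L n) := by
    unfold Ht
    rw [hZint, Rat.num_intCast, Rat.den_intCast, hexpL]
    push_cast
    rw [abs_neg, abs_of_pos (by positivity)]
    apply max_le le_rfl
    exact one_le_pow₀ (by norm_num)
  have h1 : (D n : ℝ) ≤ Real.exp (δ / 2 * L n) * Real.exp (L n) ^ (1 - 1 / (r : ℝ)) :=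
    hn.trans (mul_le_mul_of_nonneg_left (Real.rpow_le_rpow
      (by have := Ht_one (Z n); linarith) hHt hrR) (Real.exp_pos _).le)
  have h2 := hD n
  have hQpos : (0 : ℝ) < Q n := by exact_mod_cast hQ1 n
  have h3 : (Real.exp (L n) / 2) ^ (1 - 1 / (r : ℝ) + δ) ≤ D n := by
    refine le_trans ?_ h2
    exact Real.rpow_le_rpow (by positivity) (by have := hLQ n; linarith) (by linarith)
  have h4 : (Real.exp (L n) / 2) ^ (1 - 1 / (r : ℝ) + δ) =
      Real.exp ((L n - Real.log 2) * (1 - 1 / (r : ℝ) + δ)) := half_rpow _ _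
  have h5 : Real.exp (δ / 2 * L n) * Real.exp (L n) ^ (1 - 1 / (r : ℝ)) =
      Real.exp (δ / 2 * L n + L n * (1 - 1 / (r : ℝ))) := by
    rw [← Real.exp_mul, ← Real.exp_add]
  rw [h4] at h3
  rw [h5] at h1
  have h6 := Real.exp_le_exp.1 (h3.trans h1)
  rw [div_lt_iff₀ (by positivity)] at hn2
  nlinarith

/-- exponents without small prime factors -/
theorem rough (r : ℕ) (K δ : ℝ) (hδ : 0 < δ) :
    ∃ η : ℝ, 0 < η ∧ ∃ B : ℕ, ∀ n ≥ B, (∀ l : ℕ, l.Prime → l ≤ B → ¬ l ∣ n) →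
      ∀ (c : Fin r → ℤ) (a : Fin r → ℕ),
      (∀ i, |(c i : ℝ)| ≤ ((2 ^ n - 1 : ℕ) : ℝ) ^ η) → (∀ i, (a i : ℝ) ≤ K * n) →
      ¬ ((2 ^ n - 1 : ℕ) : ℤ) ∣ ∑ i, c i * 2 ^ a i →
      ∀ d : ℕ, d ∣ 2 ^ n - 1 → (d : ℤ) ∣ ∑ i, c i * 2 ^ a i →
      (d : ℝ) < ((2 ^ n - 1 : ℕ) : ℝ) ^ δ := by
  classical
  by_contra hcon
  push Not at hcon
  choose N hN hl c a hc ha hNF D hDF hDG hD using
    fun n : ℕ => hcon (1 / ((n : ℝ) + 1)) (by positivity) (n + 2)
  have hN2 : ∀ n, 2 ≤ N n := fun n => by have := hN n; omega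
  have hN1 : ∀ n, 1 ≤ N n := fun n => by have := hN n; omega
  have hl2 : 0 < Real.log 2 := Real.log_pos (by norm_num)
  set L : ℕ → ℝ := fun n => N n * Real.log 2 with hLdef
  have hexpL : ∀ n, Real.exp (L n) = 2 ^ (N n) := fun n => by
    rw [hLdef]
    simp only []
    rw [mul_comm, Real.exp_mul, Real.exp_log (by norm_num), Real.rpow_natCast]
  have hNt : Tendsto (fun n => (N n : ℝ)) atTop atTop := by
    apply tendsto_natCast_atTop_atTop.comp
    exact tendsto_atTop_mono (fun n => (Nat.le_add_right n 2).trans (hN n)) tendsto_id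
  have hL : Tendsto L atTop atTop := hNt.atTop_mul_const hl2
  have hLn : ∀ n, 0 ≤ L n := fun n => mul_nonneg (Nat.cast_nonneg _) hl2.le
  set Z : ℕ → ℚ := fun n => -(2 ^ N n) with hZ
  have hZ0 : ∀ n, Z n ≠ 0 := fun n => neg_ne_zero.2 (by positivity)
  have hZint : ∀ n, Z n = ((-(2 ^ N n) : ℤ) : ℚ) := fun n => by rw [hZ]; push_cast; rfl
  have hZsu : ∀ n, IsSU b2 (Z n) := fun n =>
    isSU_neg b2_prime (isSU_pow b2_prime su_two _)
  have hZB : Bd L (gm Z) := by
    refine ⟨fun n => -2 ^ (N n), fun _ => 1, 1, ?_, ?_, ?_, ?_⟩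
    · refine Eventually.of_forall fun n => ?_
      push_cast
      rw [abs_neg, one_mul, abs_of_pos (by positivity), hexpL]
    · refine Eventually.of_forall fun n => ?_
      push_cast
      rw [abs_one, one_mul]
      exact Real.one_le_exp (hLn n)
    · exact Eventually.of_forall fun n => one_ne_zero
    · congr 1
      funext n
      rw [hZ]
      push_cast
      rw [div_one]
  have hZK : gm Z ∉ KK L hL := by
    intro h
    rw [mem_KK_iff] at h
    have h1 := h.1 (1 / 2) (by norm_num)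
    obtain ⟨n, hn0⟩ := h1.exists
    have hn1 : |((Z n).num : ℝ)| ≤ Real.exp (1 / 2 * L n) := hn0
    rw [hZint, Rat.num_intCast] at hn1
    push_cast at hn1
    rw [abs_neg, abs_of_pos (by positivity), ← hexpL, Real.exp_le_exp] at hn1
    have h6 : (1 : ℝ) ≤ N n := by exact_mod_cast hN1 n
    have h7 : 0 < L n := mul_pos (by linarith) hl2
    linarith
  set Q : ℕ → ℕ := fun n => 2 ^ N n - 1 with hQ
  have hQ1 : ∀ n, 1 ≤ Q n := fun n => by
    have := pow_ge (hN1 n)
    rw [hQ]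
    simp only []
    omega
  have hQ0 : ∀ n, Q n ≠ 0 := fun n => by have := hQ1 n; omega
  have hQZ : ∀ n, ((Q n : ℕ) : ℤ) = 2 ^ N n - 1 := fun n => by
    rw [hQ]
    simp only []
    rw [Nat.cast_sub (Nat.one_le_two_pow)]
    push_cast
    rfl
  have h1Z : ∀ n, 1 + Z n = ((-((Q n : ℕ) : ℤ) : ℤ) : ℚ) := by
    intro n
    rw [hQZ, hZ]
    push_cast
    ring
  have hF0 : ∀ n, 1 + Z n ≠ 0 := by
    intro n
    rw [h1Z]
    exact_mod_cast neg_ne_zero.2 (by exact_mod_cast hQ0 n : ((Q n : ℕ) : ℤ) ≠ 0)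
  have hQF : ∀ n, (Q n : ℤ) ∣ (1 + Z n).num := by
    intro n
    rw [h1Z, Rat.num_intCast, dvd_neg]
  have hQR : ∀ n, (Q n : ℝ) = 2 ^ N n - 1 := fun n => by
    have := hQZ n
    exact_mod_cast this
  have hQL : ∀ n, (Q n : ℝ) ≤ Real.exp (L n) := fun n => by
    rw [hQR, hexpL]
    linarith
  have hLQ : ∀ n, Real.exp (L n) ≤ 2 * Q n := fun n => by
    rw [hQR, hexpL]
    have h1 : (2 : ℝ) ≤ 2 ^ N n := by exact_mod_cast pow_ge (hN1 n)
    linarith
  have hcop : ∀ n v, Nat.Coprime (Q n) (b2 v) := by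
    intro n v
    rw [Nat.coprime_comm, (b2_prime v).coprime_iff_not_dvd]
    intro h
    have h1 : 2 ∣ 2 ^ N n := dvd_pow_self _ (by have := hN1 n; omega)
    have h2 : 2 ∣ 2 ^ N n - 1 := h
    have := pow_ge (hN1 n)
    omega
  set u : Fin r → ℕ → ℚ := fun t n => 2 ^ (a n t) with hu
  have hsum : ∀ n, ∑ t, (c n t : ℚ) * u t n = ((∑ t, c n t * 2 ^ a n t : ℤ) : ℚ) := by
    intro n
    push_cast
    rfl
  have huB : ∀ t, Bd L (gm (u t)) := by
    intro t
    refine ⟨fun n => 2 ^ (a n t), fun _ => 1, K, ?_, ?_, ?_, ?_⟩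
    · refine Eventually.of_forall fun n => ?_
      push_cast
      rw [abs_of_pos (by positivity)]
      have h1 := ha n t
      have h2 : (2 : ℝ) ^ (a n t) = Real.exp (a n t * Real.log 2) := by
        rw [mul_comm, Real.exp_mul, Real.exp_log (by norm_num), Real.rpow_natCast]
      rw [h2]
      apply Real.exp_le_exp.2
      have h3 : K * L n = K * N n * Real.log 2 := by rw [hLdef]; ring
      rw [h3]
      exact mul_le_mul_of_nonneg_right h1 hl2.le
    · refine Eventually.of_forall fun n => ?_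
      push_cast
      rw [abs_one]
      apply Real.one_le_exp
      have h1 := ha n t
      have h2 : (0 : ℝ) ≤ K * N n := le_trans (Nat.cast_nonneg _) h1
      have h3 : K * L n = K * N n * Real.log 2 := by rw [hLdef]; ring
      rw [h3]
      positivity
    · exact Eventually.of_forall fun n => one_ne_zero
    · congr 1
      funext n
      rw [hu]
      push_cast
      rw [div_one]
  have hneg : ∀ t, Negl L (fun n => c n t) := by
    intro t ε hε
    obtain ⟨N', hN'⟩ := exists_nat_gt (1 / ε)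
    filter_upwards [ev_of_atTop (eventually_ge_atTop N')] with n hn
    have h1 := hc n t
    refine h1.trans ?_
    have hQ1' : (1 : ℝ) ≤ Q n := by exact_mod_cast hQ1 n
    calc ((Q n : ℕ) : ℝ) ^ (1 / ((n : ℝ) + 1)) ≤ (Real.exp (L n)) ^ (1 / ((n : ℝ) + 1)) :=
          Real.rpow_le_rpow (by linarith) (hQL n) (by positivity)
      _ = Real.exp (1 / ((n : ℝ) + 1) * L n) := by rw [← Real.exp_mul, mul_comm]
      _ ≤ Real.exp (ε * L n) := by
          apply Real.exp_le_exp.2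
          apply mul_le_mul_of_nonneg_right _ (hLn n)
          have hN'' : (N' : ℝ) ≤ n := by exact_mod_cast hn
          rw [div_le_iff₀ (by positivity)]
          rw [div_lt_iff₀ hε] at hN'
          nlinarith
  have hZ1 : ∀ w : GG, ∀ l : ℕ, l.Prime → gm Z ≠ -w ^ l := by
    intro w l hlp hw
    obtain ⟨ω, rfl⟩ := gm_surj w
    rw [gm_pow, gm_neg, gm_eq] at hw
    obtain ⟨n, hn, hn2⟩ := (hw.and (ev_of_atTop (eventually_ge_atTop l))).exists
    have hn3 : (ω n) ^ l = 2 ^ N n := (neg_injective hn).symm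
    exact hl n l hlp (by omega) (dvd_of_pow_eq hlp.ne_zero hn3)
  have hZ2 : ∀ w : GG, gm Z * 4 ≠ w ^ 4 := by
    intro w hw
    obtain ⟨ω, rfl⟩ := gm_surj w
    have h3 : gm (fun _ => (4 : ℚ)) = (4 : GG) := rfl
    rw [← h3, gm_mul, gm_pow, gm_eq] at hw
    obtain ⟨n, hn⟩ := hw.exists
    have h1 : 0 ≤ (ω n) ^ 4 := by positivity
    have h2 : (0 : ℚ) < 2 ^ N n := by positivity
    rw [← hn, hZ] at h1
    simp only [] at h1
    linarith
  refine core b2 b2_prime b2_inj hL Z hZsu hZB hZK hZ1 hZ2 Q hQ0 hQF hF0 hQL hcop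
    (fun t n => c n t) u (fun t n => isSU_pow b2_prime su_two _) huB hneg D hDF
    (fun n => by rw [hsum, Rat.num_intCast]; exact hDG n)
    (fun n => by rw [hsum, Rat.num_intCast]; exact hNF n) (δ := δ / 2) (by positivity)
    (fun n => ?_)
  have h2 := hD n
  have hQpos : (0 : ℝ) < Q n := by exact_mod_cast hQ1 n
  refine le_trans ?_ h2
  have h3 : (Real.exp (L n) / 2) ^ δ ≤ (Q n : ℝ) ^ δ :=
    Real.rpow_le_rpow (by positivity) (by have := hLQ n; linarith) hδ.le
  refine le_trans ?_ h3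
  have h4 : (Real.exp (L n) / 2) ^ δ = Real.exp ((L n - Real.log 2) * δ) := half_rpow _ _
  rw [h4]
  apply Real.exp_le_exp.2
  have h5 : 2 * Real.log 2 ≤ L n := by
    have h6 : (2 : ℝ) ≤ N n := by exact_mod_cast hN2 n
    rw [hLdef]
    simp only []
    nlinarith
  nlinarith

end Pool.Agent.H556.ME
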