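import Mathlib

/-!
# The `S`-part of `2 ^ n - 1`
-/

set_option autoImplicit false

namespace Pool.Agent.H556.ME

open Filter Topology

/-- the power of an odd prime dividing `2 ^ n - 1` is at most `2 ^ l n` -/
lemma pow_le_mul {n l e : ℕ} (hn : 1 ≤ n) (hl : l.Prime) (hl2 : l ≠ 2) (h : l ^ e ∣ 2 ^ n - 1) :
    l ^ e ≤ 2 ^ l * n := by
  have := Fact.mk hl
  have hodd : Odd l := hl.odd_of_ne_two hl2
  set x : ℕ := 2 ^ (l - 1) with hx
  have hl3 : 3 ≤ l := by
    have := hl.two_le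
    omega
  have hx1 : 1 < x := Nat.one_lt_two_pow (by omega)
  have hcop : IsCoprime (2 : ℤ) (l : ℤ) := by
    have := (Nat.coprime_primes Nat.prime_two hl).2 (fun h => hl2 h.symm)
    exact_mod_cast Nat.isCoprime_iff_coprime.2 this
  have h1 : (l : ℤ) ∣ 2 ^ (l - 1) - 1 := (Int.ModEq.pow_card_sub_one_eq_one hl hcop).symm.dvd
  have h2 : l ∣ x - 1 := by
    have h3 : ((x - 1 : ℕ) : ℤ) = 2 ^ (l - 1) - 1 := by
      rw [Nat.cast_sub hx1.le, hx]
      push_cast
      rfl
    rw [← h3] at h1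
    exact_mod_cast h1
  have h3 : ¬ l ∣ x := by
    intro h4
    have h5 := (Nat.prime_dvd_prime_iff_eq hl Nat.prime_two).1 (hl.dvd_of_dvd_pow h4)
    exact hl2 h5
  have h4 := padicValNat.pow_sub_pow (p := l) (x := x) (y := 1) hodd hx1 h2 h3 (n := n) (by omega)
  have h5 : 2 ^ n - 1 ∣ x ^ n - 1 ^ n := by
    rw [one_pow, hx, ← pow_mul, mul_comm, pow_mul]
    exact Nat.sub_one_dvd_pow_sub_one _ _
  have hxn : x ^ n - 1 ^ n ≠ 0 := by
    rw [one_pow]
    have : 1 < x ^ n := Nat.one_lt_pow (by omega) hx1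
    omega
  have h6 : e ≤ padicValNat l (x ^ n - 1 ^ n) := (padicValNat_dvd_iff_le hxn).1 (h.trans h5)
  rw [h4] at h6
  calc l ^ e ≤ l ^ (padicValNat l (x - 1) + padicValNat l n) :=
        Nat.pow_le_pow_right hl.pos h6
    _ = l ^ padicValNat l (x - 1) * l ^ padicValNat l n := pow_add _ _ _
    _ ≤ (x - 1) * n := Nat.mul_le_mul (Nat.le_of_dvd (by omega) pow_padicValNat_dvd)
        (Nat.le_of_dvd (by omega) pow_padicValNat_dvd)
    _ ≤ 2 ^ l * n := by
        apply Nat.mul_le_mul_right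
        calc x - 1 ≤ x := Nat.sub_le _ _
          _ ≤ 2 ^ l := by rw [hx]; exact Nat.pow_le_pow_right (by norm_num) (by omega)

/-- a divisor of `2 ^ n - 1` composed of the primes of `S` is polynomially bounded -/
lemma part_le {S : Finset ℕ} {n a : ℕ} (hn : 1 ≤ n) (ha : a ∣ 2 ^ n - 1)
    (hS : ∀ l : ℕ, l.Prime → l ∣ a → l ∈ S) : a ≤ ∏ l ∈ S, (2 ^ l * n) := by
  have hM : 0 < 2 ^ n - 1 := by
    have : 2 ≤ 2 ^ n := by
      calc 2 = 2 ^ 1 := by norm_num
        _ ≤ 2 ^ n := Nat.pow_le_pow_right (by norm_num) hn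
    omega
  have ha0 : a ≠ 0 := by
    rintro rfl
    rw [zero_dvd_iff] at ha
    omega
  have h1 : a = ∏ l ∈ a.primeFactors, l ^ a.factorization l :=
    (Nat.prod_factorization_pow_eq_self ha0).symm
  have h2 : ∏ l ∈ a.primeFactors, l ^ a.factorization l ≤ ∏ l ∈ a.primeFactors, (2 ^ l * n) := by
    apply Finset.prod_le_prod' 
    intro l hl
    have hlp := Nat.prime_of_mem_primeFactors hl
    have hla := Nat.dvd_of_mem_primeFactors hl
    refine pow_le_mul hn hlp ?_ ((Nat.ordProj_dvd a l).trans ha)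
    rintro rfl
    have h3 : 2 ∣ 2 ^ n - 1 := hla.trans ha
    have h4 : 2 ∣ 2 ^ n := dvd_pow_self _ (by omega)
    omega
  have h3 : ∏ l ∈ a.primeFactors, (2 ^ l * n) ≤ ∏ l ∈ S, (2 ^ l * n) := by
    apply Finset.prod_le_prod_of_subset_of_one_le'
    · intro l hl
      exact hS l (Nat.prime_of_mem_primeFactors hl) (Nat.dvd_of_mem_primeFactors hl)
    · intro l _ _
      exact Nat.one_le_iff_ne_zero.2 (by positivity)
  calc a = _ := h1
    _ ≤ _ := h2
    _ ≤ _ := h3

/-- these divisors are negligible -/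
lemma part_small (S : Finset ℕ) {ε : ℝ} (hε : 0 < ε) :
    ∃ B : ℕ, ∀ n ≥ B, ∀ a : ℕ, a ∣ 2 ^ n - 1 → (∀ l : ℕ, l.Prime → l ∣ a → l ∈ S) →
      (a : ℝ) ≤ Real.exp (ε * (n * Real.log 2)) := by
  have h2 : Tendsto (fun x : ℝ => Real.log x / x) atTop (𝓝 0) := by
    have := Real.isLittleO_log_id_atTop.tendsto_div_nhds_zero
    simpa using this
  set c : ℝ := ∑ l ∈ S, (l : ℝ) * Real.log 2 with hc
  have h3 : Tendsto (fun x : ℝ => c / x + S.card * (Real.log x / x)) atTop (𝓝 0) := by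
    have h4 : Tendsto (fun x : ℝ => c / x) atTop (𝓝 0) := tendsto_const_nhds.div_atTop tendsto_id
    simpa using h4.add (h2.const_mul (S.card : ℝ))
  have hl2 : 0 < Real.log 2 := Real.log_pos (by norm_num)
  have h4 := (h3.comp tendsto_natCast_atTop_atTop).eventually_lt_const
    (show (0 : ℝ) < ε * Real.log 2 by positivity)
  obtain ⟨B, hB⟩ := eventually_atTop.1 h4
  refine ⟨max B 1, fun n hn a ha hS => ?_⟩
  have hn1 : 1 ≤ n := le_of_max_le_right hn
  have hn0 : (0 : ℝ) < n := by exact_mod_cast hn1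
  have h5 := hB n (le_of_max_le_left hn)
  simp only [Function.comp] at h5
  have h6 : (a : ℝ) ≤ ∏ l ∈ S, ((2 : ℝ) ^ l * n) := by exact_mod_cast part_le hn1 ha hS
  refine h6.trans ?_
  have h7 : ∏ l ∈ S, ((2 : ℝ) ^ l * n) = Real.exp (c + S.card * Real.log n) := by
    rw [hc, Real.exp_add, Real.exp_sum, Finset.prod_mul_distrib, Finset.prod_const]
    congr 1
    · refine Finset.prod_congr rfl fun l _ => ?_
      rw [mul_comm, Real.exp_mul, Real.exp_log (by norm_num), Real.rpow_natCast]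
    · rw [mul_comm, Real.exp_mul, Real.exp_log hn0, Real.rpow_natCast]
  rw [h7]
  apply Real.exp_le_exp.2
  have h8 : (c / n + S.card * (Real.log n / n)) * n = c + S.card * Real.log n := by
    field_simp
  rw [← h8]
  have h9 := mul_lt_mul_of_pos_right h5 hn0
  linarith

end Pool.Agent.H556.ME
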