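import Mathlib
import Pool.Agent.H556.ME.Gcd
import Pool.Agent.H556.ME.Part
import Pool.Agent.H556.PT.Main

/-!
# Common divisors of `2 ^ n - 1` and short sums of `S`-units, all `n`
-/

set_option autoImplicit false

namespace Pool.Agent.H556.ME

open Filter Topology Pool.Agent.TH932.Germs Pool.Agent.TH551.SU Pool.Agent.Y724.Vj
open Pool.Agent.H556.FG Pool.Agent.H556.FX Pool.Agent.H556.GD Pool.Agent.H556.PT

/-- all exponents, mixed sums of `S`-units -/
theorem allS (S : Finset ℕ) (r : ℕ) (K δ : ℝ) (hδ : 0 < δ) :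
    ∃ η : ℝ, 0 < η ∧ ∃ B : ℕ, ∀ n ≥ B, ∀ q a : ℕ, 2 ^ n - 1 = q * a →
      (∀ l : ℕ, l.Prime → l ∣ a → l ∈ S) → (∀ l ∈ S, l.Prime → ¬ l ∣ q) →
      ∀ (c : Fin r → ℤ) (u : Fin r → ℚ), (∀ i, |(c i : ℝ)| ≤ ((2 ^ n - 1 : ℕ) : ℝ) ^ η) →
      (∀ i, u i ≠ 0) →
      (∀ i, ∀ l : ℕ, l.Prime → (l ∣ (u i).num.natAbs ∨ l ∣ (u i).den) → l ∈ S) →
      (∀ i, |((u i).num : ℝ)| ≤ ((2 ^ n - 1 : ℕ) : ℝ) ^ K ∧
        ((u i).den : ℝ) ≤ ((2 ^ n - 1 : ℕ) : ℝ) ^ K) →
      ¬ (q : ℤ) ∣ (∑ i, (c i : ℚ) * u i).num →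
      ∀ d : ℕ, d ∣ 2 ^ n - 1 → (d : ℤ) ∣ (∑ i, (c i : ℚ) * u i).num →
      (d : ℝ) < ((2 ^ n - 1 : ℕ) : ℝ) ^ (1 - 1 / (r : ℝ) + δ) := by
  classical
  by_contra hcon
  push Not at hcon
  choose N hN Q a hQa haS hQS c u hc hu0 hu huB hNF D hDF hDG hD using
    fun n : ℕ => hcon (1 / ((n : ℝ) + 1)) (by positivity) (n + 1)
  have hN1 : ∀ n, 1 ≤ N n := fun n => by have := hN n; omega
  have hl2 : 0 < Real.log 2 := Real.log_pos (by norm_num)
  set L : ℕ → ℝ := fun n => N n * Real.log 2 with hLdef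
  have hexpL : ∀ n, Real.exp (L n) = 2 ^ (N n) := fun n => by
    rw [hLdef]
    simp only []
    rw [mul_comm, Real.exp_mul, Real.exp_log (by norm_num), Real.rpow_natCast]
  have hNt : Tendsto (fun n => (N n : ℝ)) atTop atTop := by
    apply tendsto_natCast_atTop_atTop.comp
    exact tendsto_atTop_mono (fun n => (Nat.le_succ n).trans (hN n)) tendsto_id
  have hL : Tendsto L atTop atTop := hNt.atTop_mul_const hl2
  have hLn : ∀ n, 0 ≤ L n := fun n => mul_nonneg (Nat.cast_nonneg _) hl2.le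
  set M : ℕ → ℕ := fun n => 2 ^ N n - 1 with hM
  have hM1 : ∀ n, 1 ≤ M n := fun n => by
    have := pow_ge (hN1 n)
    rw [hM]
    simp only []
    omega
  have hMZ : ∀ n, ((M n : ℕ) : ℤ) = 2 ^ N n - 1 := fun n => by
    rw [hM]
    simp only []
    rw [Nat.cast_sub (Nat.one_le_two_pow)]
    push_cast
    rfl
  have hMR : ∀ n, (M n : ℝ) = 2 ^ N n - 1 := fun n => by
    have := hMZ n
    exact_mod_cast this
  have hML : ∀ n, (M n : ℝ) ≤ Real.exp (L n) := fun n => by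
    rw [hMR, hexpL]
    linarith
  have hLM : ∀ n, Real.exp (L n) ≤ 2 * M n := fun n => by
    rw [hMR, hexpL]
    have h1 : (2 : ℝ) ≤ 2 ^ N n := by exact_mod_cast pow_ge (hN1 n)
    linarith
  have hMQ : ∀ n, M n = Q n * a n := hQa
  have hQM : ∀ n, Q n ∣ M n := fun n => ⟨a n, hMQ n⟩
  have haM : ∀ n, a n ∣ M n := fun n => ⟨Q n, by rw [hMQ n, mul_comm]⟩
  have hQ0 : ∀ n, Q n ≠ 0 := fun n h => by
    have h1 := hM1 n
    rw [hMQ n, h, zero_mul] at h1
    omega
  have ha0 : ∀ n, a n ≠ 0 := fun n h => by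
    have h1 := hM1 n
    rw [hMQ n, h, mul_zero] at h1
    omega
  set Z : ℕ → ℚ := fun n => -(2 ^ N n) with hZ
  have hZ0 : ∀ n, Z n ≠ 0 := fun n => neg_ne_zero.2 (by positivity)
  have hZint : ∀ n, Z n = ((-(2 ^ N n) : ℤ) : ℚ) := fun n => by rw [hZ]; push_cast; rfl
  have su2 : IsSU (bb S) (2 : ℚ) := by
    have := isSU_int (bb S) (bb_prime S) (bb_inj S) (x := 2) (by norm_num) (fun p hp hd => by
      have h1 : p ∣ 2 := by simpa using hd
      obtain ⟨v, hv⟩ := bb_surj S (Finset.mem_union_right _ (Finset.mem_singleton_self 2))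
      exact ⟨v, hv.trans ((Nat.prime_dvd_prime_iff_eq hp Nat.prime_two).1 h1).symm⟩)
    exact_mod_cast this
  have hZsu : ∀ n, IsSU (bb S) (Z n) := fun n =>
    isSU_neg (bb_prime S) (isSU_pow (bb_prime S) su2 _)
  have hZB : Bd L (gm Z) := by
    refine ⟨fun n => -2 ^ (N n), fun _ => 1, 1, ?_, ?_, ?_, ?_⟩
    · refine Eventually.of_forall fun n => ?_
      push_cast
      rw [abs_neg, one_mul, abs_of_pos (by positivity), hexpL]
    · refine Eventually.of_forall fun n => ?_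
      push_cast
      rw [abs_one, one_mul]
      exact Real.one_le_exp (hLn n)
    · exact Eventually.of_forall fun n => one_ne_zero
    · congr 1
      funext n
      rw [hZ]
      push_cast
      rw [div_one]
  have hZK : gm Z ∉ KK L hL := by
    intro h
    rw [mem_KK_iff] at h
    have h1 := h.1 (1 / 2) (by norm_num)
    obtain ⟨n, hn0⟩ := h1.exists
    have hn1 : |((Z n).num : ℝ)| ≤ Real.exp (1 / 2 * L n) := hn0
    rw [hZint, Rat.num_intCast] at hn1
    push_cast at hn1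
    rw [abs_neg, abs_of_pos (by positivity), ← hexpL, Real.exp_le_exp] at hn1
    have h6 : (1 : ℝ) ≤ N n := by exact_mod_cast hN1 n
    have h7 : 0 < L n := mul_pos (by linarith) hl2
    linarith
  have h1Z : ∀ n, 1 + Z n = ((-((M n : ℕ) : ℤ) : ℤ) : ℚ) := by
    intro n
    rw [hMZ, hZ]
    push_cast
    ring
  have hF0 : ∀ n, 1 + Z n ≠ 0 := by
    intro n
    rw [h1Z]
    exact_mod_cast neg_ne_zero.2 (by exact_mod_cast (Nat.pos_iff_ne_zero.1 (hM1 n)) :
      ((M n : ℕ) : ℤ) ≠ 0)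
  have hQF : ∀ n, (Q n : ℤ) ∣ (1 + Z n).num := by
    intro n
    rw [h1Z, Rat.num_intCast, dvd_neg]
    exact Int.natCast_dvd_natCast.2 (hQM n)
  have hQL : ∀ n, (Q n : ℝ) ≤ Real.exp (L n) := fun n => by
    refine le_trans ?_ (hML n)
    exact_mod_cast Nat.le_of_dvd (hM1 n) (hQM n)
  have hcop : ∀ n v, Nat.Coprime (Q n) (bb S v) := by
    intro n v
    rw [Nat.coprime_comm, (bb_prime S v).coprime_iff_not_dvd]
    intro h
    rcases Finset.mem_union.1 (bb_mem S v) with h2 | h2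
    · exact hQS n _ (Finset.mem_filter.1 h2).1 (bb_prime S v) h
    · rw [Finset.mem_singleton.1 h2] at h
      have h1 : 2 ∣ 2 ^ N n := dvd_pow_self _ (by have := hN1 n; omega)
      have h3 : 2 ∣ 2 ^ N n - 1 := h.trans (hQM n)
      have := pow_ge (hN1 n)
      omega
  have key0 : ∀ n, ((M n : ℕ) : ℝ) ^ K ≤ Real.exp (|K| * L n) := by
    intro n
    have h1 : (1 : ℝ) ≤ M n := by exact_mod_cast hM1 n
    calc ((M n : ℕ) : ℝ) ^ K ≤ ((M n : ℕ) : ℝ) ^ |K| :=
          Real.rpow_le_rpow_of_exponent_le h1 (le_abs_self K)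
      _ ≤ (Real.exp (L n)) ^ |K| :=
          Real.rpow_le_rpow (by positivity) (hML n) (abs_nonneg K)
      _ = Real.exp (|K| * L n) := by rw [← Real.exp_mul, mul_comm]
  have huBd : ∀ t, Bd L (gm fun n => u n t) := by
    intro i
    refine ⟨fun n => (u n i).num, fun n => ((u n i).den : ℤ), |K|, ?_, ?_, ?_, ?_⟩
    · exact Eventually.of_forall fun n => (huB n i).1.trans (key0 n)
    · refine Eventually.of_forall fun n => ?_
      rw [Int.cast_natCast, abs_of_nonneg (Nat.cast_nonneg _)]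
      exact (huB n i).2.trans (key0 n)
    · refine Eventually.of_forall fun n => ?_
      simp only []
      exact_mod_cast (u n i).den_ne_zero
    · congr 1
      funext n
      exact_mod_cast (Rat.num_div_den (u n i)).symm
  have husu : ∀ i n, IsSU (bb S) (u n i) := by
    intro i n
    apply isSU_of (bb S) (bb_prime S) _ (hu0 n i) _ (bb_inj S)
    intro p hp hd
    exact bb_surj S (Finset.mem_union_left _ (Finset.mem_filter.2 ⟨hu n i p hp hd, hp⟩))
  have hneg : ∀ t, Negl L (fun n => c n t) := by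
    intro t ε hε
    obtain ⟨N', hN'⟩ := exists_nat_gt (1 / ε)
    filter_upwards [ev_of_atTop (eventually_ge_atTop N')] with n hn
    have h1 := hc n t
    refine h1.trans ?_
    have hM1' : (1 : ℝ) ≤ M n := by exact_mod_cast hM1 n
    calc ((M n : ℕ) : ℝ) ^ (1 / ((n : ℝ) + 1)) ≤ (Real.exp (L n)) ^ (1 / ((n : ℝ) + 1)) :=
          Real.rpow_le_rpow (by linarith) (hML n) (by positivity)
      _ = Real.exp (1 / ((n : ℝ) + 1) * L n) := by rw [← Real.exp_mul, mul_comm]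
      _ ≤ Real.exp (ε * L n) := by
          apply Real.exp_le_exp.2
          apply mul_le_mul_of_nonneg_right _ (hLn n)
          have hN'' : (N' : ℝ) ≤ n := by exact_mod_cast hn
          rw [div_le_iff₀ (by positivity)]
          rw [div_lt_iff₀ hε] at hN'
          nlinarith
  have key := coreG (bb S) (bb_prime S) (bb_inj S) hL Z hZsu hZ0 hZB hZK Q hQ0 hQF hF0 hQL hcop
    (fun t n => c n t) (fun t n => u n t) husu huBd hneg (fun n => Nat.gcd (D n) (Q n))
    (fun n => Nat.gcd_dvd_right _ _)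
    (fun n => (Int.natCast_dvd_natCast.2 (Nat.gcd_dvd_left _ _)).trans (hDG n))
    hNF (ε := δ / 4) (by positivity)
  obtain ⟨B9, hB9⟩ := part_small S (ε := δ / 4) (by positivity)
  have hr : 1 ≤ r := by
    by_contra h0
    have h1 : r = 0 := by omega
    subst h1
    apply hNF 0
    simp
  have hr' : (1 : ℝ) ≤ r := by exact_mod_cast hr
  have hrR : (0 : ℝ) ≤ 1 - 1 / (r : ℝ) := by
    rw [sub_nonneg, div_le_one (by linarith)]
    exact hr'
  have hr1 : 1 - 1 / (r : ℝ) ≤ 1 := by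
    have : (0 : ℝ) < 1 / (r : ℝ) := by positivity
    linarith
  obtain ⟨n, hn, hn2, hn3⟩ := (key.and ((ev_of_atTop (hL.eventually_gt_atTop
    ((2 + δ) * Real.log 2 / (δ / 2)))).and (ev_of_atTop (eventually_ge_atTop B9)))).exists
  have hHt : Ht (Z n) ≤ Real.exp (L n) := by
    unfold Ht
    rw [hZint, Rat.num_intCast, Rat.den_intCast, hexpL]
    push_cast
    rw [abs_neg, abs_of_pos (by positivity)]
    apply max_le le_rfl
    exact one_le_pow₀ (by norm_num)
  have hg1 : ((Nat.gcd (D n) (Q n) : ℕ) : ℝ) ≤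
      Real.exp (δ / 4 * L n) * Real.exp (L n) ^ (1 - 1 / (r : ℝ)) :=
    hn.trans (mul_le_mul_of_nonneg_left (Real.rpow_le_rpow
      (by have := Ht_one (Z n); linarith) hHt hrR) (Real.exp_pos _).le)
  have hga : (a n : ℝ) ≤ Real.exp (δ / 4 * L n) :=
    hB9 (N n) (by have := hN n; omega) (a n) (haM n) (haS n)
  have hDg : D n ≤ Nat.gcd (D n) (Q n) * a n := by
    apply Nat.le_of_dvd (Nat.mul_pos (Nat.gcd_pos_of_pos_right _ (Nat.pos_of_ne_zero (hQ0 n)))
      (Nat.pos_of_ne_zero (ha0 n)))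
    have h1 : D n ∣ Q n * a n := (hMQ n) ▸ hDF n
    exact dvd_gcd_mul_of_dvd_mul h1
  have h1 : (D n : ℝ) ≤ Real.exp (δ / 2 * L n) * Real.exp (L n) ^ (1 - 1 / (r : ℝ)) := by
    have h2 : (D n : ℝ) ≤ ((Nat.gcd (D n) (Q n) : ℕ) : ℝ) * a n := by exact_mod_cast hDg
    refine h2.trans ?_
    calc ((Nat.gcd (D n) (Q n) : ℕ) : ℝ) * a n
        ≤ (Real.exp (δ / 4 * L n) * Real.exp (L n) ^ (1 - 1 / (r : ℝ))) * Real.exp (δ / 4 * L n) :=
          mul_le_mul hg1 hga (Nat.cast_nonneg _) (by positivity)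
      _ = (Real.exp (δ / 4 * L n) * Real.exp (δ / 4 * L n)) * Real.exp (L n) ^ (1 - 1 / (r : ℝ)) := by
          ring
      _ = _ := by
          rw [← Real.exp_add]
          congr 2
          ring
  have h2 := hD n
  have hMpos : (0 : ℝ) < M n := by exact_mod_cast hM1 n
  have h3 : (Real.exp (L n) / 2) ^ (1 - 1 / (r : ℝ) + δ) ≤ D n := by
    refine le_trans ?_ h2
    exact Real.rpow_le_rpow (by positivity) (by have := hLM n; linarith) (by linarith)
  have h4 : (Real.exp (L n) / 2) ^ (1 - 1 / (r : ℝ) + δ) =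
      Real.exp ((L n - Real.log 2) * (1 - 1 / (r : ℝ) + δ)) := half_rpow _ _
  have h5 : Real.exp (δ / 2 * L n) * Real.exp (L n) ^ (1 - 1 / (r : ℝ)) =
      Real.exp (δ / 2 * L n + L n * (1 - 1 / (r : ℝ))) := by
    rw [← Real.exp_mul, ← Real.exp_add]
  rw [h4] at h3
  rw [h5] at h1
  have h6 := Real.exp_le_exp.1 (h3.trans h1)
  rw [div_lt_iff₀ (by positivity)] at hn2
  nlinarith

end Pool.Agent.H556.ME
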