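import Mathlib
import Pool.Agent.H556.ME.Gcd

/-!
# Binary digits of the multiples of the divisors of Mersenne numbers
-/

set_option autoImplicit false

namespace Pool.Agent.H556.ME

/-- the binary digits -/
lemma digits (m N : ℕ) : (m : ℤ) = ∑ j ∈ Finset.range N, ((m / 2 ^ j % 2 : ℕ) : ℤ) * 2 ^ j +
      ((m / 2 ^ N : ℕ) : ℤ) * 2 ^ N := by
  induction N with
  | zero => simp
  | succ N ih =>
    rw [Finset.sum_range_succ]
    conv_lhs => rw [ih]
    have h1 : ((m / 2 ^ N : ℕ) : ℤ) = 2 * ((m / 2 ^ (N + 1) : ℕ) : ℤ) +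
        ((m / 2 ^ N % 2 : ℕ) : ℤ) := by
      have h2 : m / 2 ^ (N + 1) = m / 2 ^ N / 2 := by rw [pow_succ, Nat.div_div_eq_div_mul]
      rw [h2]
      have h3 := Nat.div_add_mod (m / 2 ^ N) 2
      exact_mod_cast h3.symm
    have h4 : (2 : ℤ) ^ (N + 1) = 2 ^ N * 2 := pow_succ _ _
    rw [h4]
    linear_combination (2 ^ N : ℤ) * h1

/-- a number in terms of its digit changes -/
lemma changes_eq (m N : ℕ) : (m : ℤ) = -((m % 2 : ℕ) : ℤ) + ∑ j ∈ Finset.range N,
    (((m / 2 ^ j % 2 : ℕ) : ℤ) - ((m / 2 ^ (j + 1) % 2 : ℕ) : ℤ)) * 2 ^ (j + 1) +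
      (((m / 2 ^ N : ℕ) : ℤ) + ((m / 2 ^ N % 2 : ℕ) : ℤ)) * 2 ^ N := by
  induction N with
  | zero => simp
  | succ N ih =>
    rw [Finset.sum_range_succ]
    conv_lhs => rw [ih]
    have h1 : ((m / 2 ^ N : ℕ) : ℤ) = 2 * ((m / 2 ^ (N + 1) : ℕ) : ℤ) +
        ((m / 2 ^ N % 2 : ℕ) : ℤ) := by
      have h2 : m / 2 ^ (N + 1) = m / 2 ^ N / 2 := by rw [pow_succ, Nat.div_div_eq_div_mul]
      rw [h2]
      have h3 := Nat.div_add_mod (m / 2 ^ N) 2
      exact_mod_cast h3.symm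
    have h4 : (2 : ℤ) ^ (N + 1) = 2 ^ N * 2 := pow_succ _ _
    rw [h4]
    linear_combination (2 ^ N : ℤ) * h1

/-- sums with few terms as families -/
lemma pack (p : ℕ) (c : ℕ → ℤ) (hc : ∀ j, |c j| ≤ 1) (J : Finset ℕ) (hJ : ∀ j ∈ J, j ≤ p) :
    ∀ r : ℕ, J.card ≤ r → ∃ (c' : Fin r → ℤ) (e : Fin r → ℕ), (∀ i, |c' i| ≤ 1) ∧
      (∀ i, e i ≤ p) ∧ ∑ j ∈ J, c j * 2 ^ j = ∑ i, c' i * 2 ^ (e i) := by
  classical
  induction J using Finset.induction_on with
  | empty =>
    intro r _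
    exact ⟨fun _ => 0, fun _ => 0, by simp, by simp, by simp⟩
  | insert j J hj ih =>
    intro r hr
    rw [Finset.card_insert_of_notMem hj] at hr
    obtain ⟨r', rfl⟩ : ∃ r', r = r' + 1 := ⟨r - 1, by omega⟩
    obtain ⟨c', e, h1, h2, h3⟩ := ih (fun j hj => hJ j (Finset.mem_insert_of_mem hj)) r' (by omega)
    refine ⟨Fin.cons (c j) c', Fin.cons j e, ?_, ?_, ?_⟩
    · intro i
      induction i using Fin.cases with
      | zero => exact hc j
      | succ i => exact h1 i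
    · intro i
      induction i using Fin.cases with
      | zero => exact hJ j (Finset.mem_insert_self _ _)
      | succ i => exact h2 i
    · rw [Finset.sum_insert hj, Fin.sum_univ_succ, h3]
      simp

lemma one_le_M {n : ℕ} (hn : 1 ≤ n) : 1 ≤ 2 ^ n - 1 := by
  have := pow_ge hn
  omega

lemma one_le_rpow {n : ℕ} (hn : 1 ≤ n) {η : ℝ} (hη : 0 < η) :
    (1 : ℝ) ≤ ((2 ^ n - 1 : ℕ) : ℝ) ^ η :=
  Real.one_le_rpow (by exact_mod_cast one_le_M hn) hη.le

/-- **digit changes of multiples of divisors of `2 ^ n - 1`, `n` without small prime factors** -/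
theorem changes (r : ℕ) (δ : ℝ) (hδ : 0 < δ) :
    ∃ B : ℕ, ∀ n ≥ B, (∀ l : ℕ, l.Prime → l ≤ B → ¬ l ∣ n) →
      ∀ d m : ℕ, d ∣ 2 ^ n - 1 → ((2 ^ n - 1 : ℕ) : ℝ) ^ δ ≤ d → d ∣ m → 0 < m → m < 2 ^ n - 1 →
      r < ((Finset.range n).filter fun i => m / 2 ^ i % 2 ≠ m / 2 ^ (i + 1) % 2).card := by
  classical
  obtain ⟨η, hη, B, h⟩ := rough (r + 1) 1 δ hδ
  refine ⟨B + 1, fun n hn hl d m hdM hd hdm hm0 hmM => ?_⟩
  by_contra hcon
  push Not at hcon
  set dig : ℕ → ℤ := fun j => ((m / 2 ^ j % 2 : ℕ) : ℤ) with hdig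
  have hdig0 : ∀ j, 0 ≤ dig j ∧ dig j ≤ 1 := by
    intro j
    have := Nat.mod_lt (m / 2 ^ j) (show 0 < 2 by norm_num)
    rw [hdig]
    simp only []
    omega
  have hmp : m < 2 ^ n := by omega
  set J : Finset ℕ := (Finset.range n).filter fun i => m / 2 ^ i % 2 ≠ m / 2 ^ (i + 1) % 2
    with hJ
  have hsum : (m : ℤ) = -dig 0 + ∑ j ∈ J, (dig j - dig (j + 1)) * 2 ^ (j + 1) := by
    have h1 := changes_eq m n
    rw [Nat.div_eq_of_lt hmp] at h1
    have h2 : ∑ j ∈ Finset.range n, (dig j - dig (j + 1)) * 2 ^ (j + 1) =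
        ∑ j ∈ J, (dig j - dig (j + 1)) * 2 ^ (j + 1) := by
      rw [hJ, Finset.sum_filter]
      refine Finset.sum_congr rfl fun j _ => ?_
      split_ifs with h3
      · rfl
      · push Not at h3
        have h4 : dig j = dig (j + 1) := by
          rw [hdig]
          simp only []
          exact_mod_cast h3
        rw [h4, sub_self, zero_mul]
    rw [← h2, h1]
    simp [hdig]
  set c0 : ℕ → ℤ := fun j => if j = 0 then 0 else dig (j - 1) - dig j with hc0
  have hc09 : ∀ j, |c0 j| ≤ 1 := by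
    intro j
    rw [hc0]
    simp only []
    split_ifs
    · norm_num
    · have h1 := hdig0 (j - 1)
      have h2 := hdig0 j
      rw [abs_le]
      constructor <;> linarith
  set J' : Finset ℕ := J.image (fun j => j + 1) with hJ'
  have hJ'p : ∀ j ∈ J', j ≤ n := by
    intro j hj
    rw [hJ', Finset.mem_image] at hj
    obtain ⟨i, hi, rfl⟩ := hj
    rw [hJ, Finset.mem_filter, Finset.mem_range] at hi
    omega
  have hJ'c : J'.card ≤ r := by
    rw [hJ', Finset.card_image_of_injective _ (fun a b h => by omega)]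
    exact hcon
  obtain ⟨c', e, g1, g2, g3⟩ := pack n c0 hc09 J' hJ'p r hJ'c
  have hsum2 : (m : ℤ) = -dig 0 + ∑ i, c' i * 2 ^ (e i) := by
    rw [← g3]
    conv_lhs => rw [hsum]
    rw [hJ', Finset.sum_image (fun a _ b _ h => by omega)]
    congr 1
  set c : Fin (r + 1) → ℤ := Fin.cons (-dig 0) c' with hc
  set e' : Fin (r + 1) → ℕ := Fin.cons 0 e with he'
  have hG : ∑ i, c i * (2 : ℤ) ^ (e' i) = m := by
    rw [hsum2, Fin.sum_univ_succ, hc, he']
    simp only [Fin.cons_zero, Fin.cons_succ, pow_zero, mul_one]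
  have hc9 : ∀ i, |c i| ≤ 1 := by
    intro i
    rw [hc]
    induction i using Fin.cases with
    | zero =>
      simp only [Fin.cons_zero]
      have := hdig0 0
      rw [abs_le]
      constructor <;> linarith
    | succ i => simp only [Fin.cons_succ]; exact g1 i
  have he9 : ∀ i, e' i ≤ n := by
    intro i
    rw [he']
    induction i using Fin.cases with
    | zero => simp
    | succ i => simp only [Fin.cons_succ]; exact g2 i
  have key := h n (by omega) (fun l hl1 hl2 => hl l hl1 (by omega)) c e'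
    (fun i => by
      have h1 : |(c i : ℝ)| ≤ 1 := by exact_mod_cast hc9 i
      exact h1.trans (one_le_rpow (by omega) hη))
    (fun i => by rw [one_mul]; exact_mod_cast he9 i)
    (by
      rw [hG]
      intro hdv
      have h3 := Nat.le_of_dvd hm0 (Int.natCast_dvd_natCast.1 hdv)
      omega)
    d hdM (by rw [hG]; exact_mod_cast hdm)
  linarith

/-- **nonzero digits of multiples of divisors of `2 ^ n - 1`, all `n`** -/
theorem weight (R : ℕ) (δ : ℝ) (hδ : 0 < δ) :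
    ∃ B : ℕ, ∀ n ≥ B, ∀ d m : ℕ, d ∣ 2 ^ n - 1 → d ∣ m → 0 < m → m < 2 ^ n - 1 → ∀ r : ℕ, r ≤ R →
      ((Finset.range n).filter fun i => m / 2 ^ i % 2 = 1).card = r →
      (d : ℝ) < ((2 ^ n - 1 : ℕ) : ℝ) ^ (1 - 1 / (r : ℝ) + δ) := by
  classical
  choose η hη B h using fun r : ℕ => all r 1 δ hδ
  refine ⟨1 + ∑ r ∈ Finset.range (R + 1), B r, fun n hn d m hdM hdm hm0 hmM r hr hcard => ?_⟩
  have hBr : B r ≤ ∑ r ∈ Finset.range (R + 1), B r :=
    Finset.single_le_sum (f := B) (fun _ _ => Nat.zero_le _) (Finset.mem_range.2 (by omega))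
  have hmp : m < 2 ^ n := by omega
  set J : Finset ℕ := (Finset.range n).filter fun i => m / 2 ^ i % 2 = 1 with hJ
  have hsum : (m : ℤ) = ∑ j ∈ J, (1 : ℤ) * 2 ^ j := by
    have h1 := digits m n
    rw [Nat.div_eq_of_lt hmp] at h1
    rw [hJ, Finset.sum_filter]
    conv_lhs => rw [h1]
    rw [Nat.cast_zero, zero_mul, add_zero]
    refine Finset.sum_congr rfl fun j _ => ?_
    split_ifs with h3
    · rw [h3, Nat.cast_one]
    · have h4 : m / 2 ^ j % 2 = 0 := by omega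
      rw [h4, Nat.cast_zero, zero_mul]
  obtain ⟨c', e, g1, g2, g3⟩ := pack n (fun _ => 1) (fun _ => by norm_num) J
    (fun j hj => (Finset.mem_range.1 (Finset.mem_filter.1 hj).1).le) r hcard.le
  rw [← hsum] at g3
  exact h r n (by omega) c' e
    (fun i => by
      have h1 : |(c' i : ℝ)| ≤ 1 := by exact_mod_cast g1 i
      exact h1.trans (one_le_rpow (by omega) (hη r)))
    (fun i => by rw [one_mul]; exact_mod_cast g2 i)
    (by
      rw [← g3]
      intro hdv
      have h3 := Nat.le_of_dvd hm0 (Int.natCast_dvd_natCast.1 hdv)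
      omega)
    d hdM (by rw [← g3]; exact_mod_cast hdm)

end Pool.Agent.H556.ME
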